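import Pool.Agent.TH152.BB.CutStm

/-!
A place over a point of a curve (job 4880 of helper152, written by helper558).
-/

set_option autoImplicit false

namespace Pool.Agent.TH152.BB

open FF IsDedekindDomain IntermediateField

theorem plc_all : S_PLC := by
  intro L _ _ hFF A t htA ht hint η
  open scoped algebraAdjoinAdjoin in
  let A0 := Algebra.adjoin ℂ {t}
  let e := Polynomial.algEquivOfTranscendental ℂ t ht
  have hpid : IsPrincipalIdealRing A0 :=
    IsPrincipalIdealRing.of_surjective e.toRingEquiv e.surjective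
  have hded : IsDedekindDomain A0 := inferInstance
  have hfin := IsFF.finite ht
  have hchar : CharZero ℂ⟮t⟯ := charZero_of_injective_algebraMap (algebraMap ℂ ℂ⟮t⟯).injective
  have hsep : Algebra.IsSeparable ℂ⟮t⟯ L := inferInstance
  let B := integralClosure A0 L
  have hB1 : IsDedekindDomain B := integralClosure.isDedekindDomain A0 ℂ⟮t⟯ L
  have hB2 : IsFractionRing B L := integralClosure.isFractionRing_of_finite_extension ℂ⟮t⟯ L
  have hsc : IsScalarTower ℂ B L := by
    refine IsScalarTower.of_algebraMap_eq fun c => ?_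
    rw [IsScalarTower.algebraMap_apply ℂ A0 B, ← IsScalarTower.algebraMap_apply A0 B L,
      ← IsScalarTower.algebraMap_apply ℂ A0 L]
  -- the inclusion of `A` in `B`
  obtain ⟨ι, hι⟩ : ∃ ι : A →+* B, ∀ x, ((ι x : B) : L) = (x : L) :=
    ⟨(A.val : A →+* L).codRestrict B (fun x => hint x x.2), fun x => rfl⟩
  have hle : A0 ≤ A := Algebra.adjoin_le (by
    intro z hz
    rw [Set.mem_singleton_iff] at hz
    rw [hz]
    exact htA)
  let _ : Algebra A B := ι.toAlgebra
  have hAB : Algebra.IsIntegral A B := by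
    refine ⟨fun b => ?_⟩
    obtain ⟨p, hp, he⟩ := (integralClosure.isIntegral b : IsIntegral A0 b)
    refine ⟨p.map (Subalgebra.inclusion hle : A0 →+* A), hp.map _, ?_⟩
    rw [Polynomial.eval₂_map]
    have h1 : (algebraMap A B).comp (Subalgebra.inclusion hle : A0 →+* A) = algebraMap A0 B := by
      refine RingHom.ext fun z => Subtype.ext ?_
      exact hι _
    rw [h1]
    exact he
  have hsurj : Function.Surjective (η : A →+* ℂ) := fun z => ⟨algebraMap ℂ A z, η.commutes z⟩
  have hmax : (RingHom.ker (η : A →+* ℂ)).IsMaximal := RingHom.ker_isMaximal_of_surjective _ hsurj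
  have hker : RingHom.ker (algebraMap A B) ≤ RingHom.ker (η : A →+* ℂ) := by
    intro x hx
    have h1 : ι x = 0 := hx
    have h2 : (x : L) = 0 := by rw [← hι x, h1]; rfl
    have h3 : x = 0 := Subtype.ext h2
    rw [h3]
    exact Ideal.zero_mem _
  obtain ⟨Q, hQmax, hQ⟩ := Ideal.exists_ideal_over_maximal_of_isIntegral
    (RingHom.ker (η : A →+* ℂ)) hker
  have hmem : ∀ x : A, ι (x - algebraMap ℂ A (η x)) ∈ Q := by
    intro x
    have h1 : x - algebraMap ℂ A (η x) ∈ Q.comap (algebraMap A B) := by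
      rw [hQ, RingHom.mem_ker]
      show η (x - algebraMap ℂ A (η x)) = 0
      rw [map_sub, AlgHom.commutes]
      exact sub_self _
    exact h1
  have hval : ∀ x : A, algebraMap B L (ι (x - algebraMap ℂ A (η x))) =
      (x : L) - algebraMap ℂ L (η x) := fun x => hι _
  have hQ0 : Q ≠ ⊥ := by
    intro h0
    have h1 := hmem ⟨t, htA⟩
    rw [h0, Ideal.mem_bot] at h1
    have h2 := hval ⟨t, htA⟩
    rw [h1, map_zero] at h2
    have h3 : t = algebraMap ℂ L (η ⟨t, htA⟩) := (sub_eq_zero.1 h2.symm)
    exact ht (h3 ▸ isAlgebraic_algebraMap _)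
  refine ⟨placeOf (k := ℂ) (L := L) (⟨Q, hQmax.isPrime, hQ0⟩ : HeightOneSpectrum B), fun x => ?_⟩
  by_cases hx : (x : L) - algebraMap ℂ L (η x) = 0
  · exact Or.inl (sub_eq_zero.1 hx)
  · right
    rw [← hval x] at hx ⊢
    exact (placeOf_pos _ hx).2 ((HeightOneSpectrum.valuation_lt_one_iff_mem _ _).2 (hmem x))

end Pool.Agent.TH152.BB
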